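import Pool.Agent.K3h20.FB.Stm
import Pool.Agent.H868R3.TateExt

/-! Project FB (helper20), brick TWO. -/

set_option autoImplicit false

open Polynomial NumberField

namespace Pool.Agent.K3h72.FB

open Pool.Agent.K3h20.FB

theorem rt_iff {E : Type} [Field E] [NumberField E] (x : E) (hx : IsIntegral ℤ x) (z : ℂ) :
    Rt (minpoly ℤ x) z ↔ ∃ φ : E →+* ℂ, φ x = z := by
  have h1 := NumberField.Embeddings.range_eval_eq_rootSet_minpoly E ℂ x
  have h2 : z ∈ (minpoly ℚ x).rootSet ℂ ↔ ∃ φ : E →+* ℂ, φ x = z := by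
    rw [← h1]
    rfl
  rw [← h2, mem_rootSet, minpoly.isIntegrallyClosed_eq_field_fractions' ℚ hx]
  have h3 : (minpoly ℤ x).map (algebraMap ℤ ℚ) ≠ 0 :=
    ((minpoly.monic hx).map (algebraMap ℤ ℚ)).ne_zero
  have h4 : aeval z ((minpoly ℤ x).map (algebraMap ℤ ℚ)) =
      eval z ((minpoly ℤ x).map (Int.castRingHom ℂ)) := by
    rw [aeval_map_algebraMap, ← eval_map_algebraMap]
    rfl
  rw [h4]
  unfold Rt
  rw [IsRoot.def]
  exact ⟨fun h => ⟨h3, h⟩, fun h => h.2⟩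

theorem norm_list (c : ℝ) (L : List ℂ) (h : ∀ z ∈ L, ‖z‖ ^ 2 = c) :
    ‖L.prod‖ ^ 2 = c ^ L.length := by
  induction L with
  | nil => simp
  | cons z L ih =>
    rw [List.prod_cons, norm_mul, mul_pow, h z (by simp), ih fun y hy => h y (by simp [hy]),
      List.length_cons, pow_succ']

/-- **Brick TWO.** -/
theorem t_TWO : S_TWO := by
  intro p _ a ha I _ K _ _ _ k hdeg hdisc π hint hgen hweil κ hκ o hodd hslope
  have hpp : p.Prime := Fact.out
  have hnorm : ∀ i z, Rt (minpoly ℤ (π i)) z → ‖z‖ ^ 2 = (p : ℝ) ^ a := by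
    intro i z hz
    obtain ⟨φ, rfl⟩ := (rt_iff (π i) (hint i) z).1 hz
    exact hweil i φ
  refine ⟨fun i => ⟨minpoly.monic (hint i), hnorm i⟩, ?_⟩
  intro R hR m s hs hprod z hz
  right
  have hq : (0 : ℚ) < (p : ℚ) ^ a := pow_pos (by exact_mod_cast hpp.pos) a
  have hp1 : (1 : ℝ) < p := by exact_mod_cast hpp.one_lt
  have hq1 : (1 : ℝ) < (p : ℝ) ^ a := one_lt_pow₀ hp1 ha.ne'
  have hcast : (((p : ℚ) ^ a : ℚ) : ℂ) = (p : ℂ) ^ a := by
    push_cast
    rfl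
  have h1 : - Real.logb p ‖((((p : ℚ) ^ a : ℚ)) : PadicAlgCl p)‖ = a := by
    rw [Pool.Agent.H925R2.norm_pow_cast, Real.logb_inv, Real.logb_pow,
      Real.logb_self_eq_one hp1]
    ring
  obtain ⟨L, hLR⟩ : ∃ L : List ℂ, (L : Multiset ℂ) = R := ⟨R.toList, R.coe_toList⟩
  subst hLR
  have hLn : ∀ y ∈ L, ‖y‖ ^ 2 = (p : ℝ) ^ a := by
    intro y hy
    obtain ⟨P, ⟨i, rfl⟩, hP⟩ := hR y (by simpa using hy)
    exact hnorm i y hP
  have hmem : ∀ y, (∃ P ∈ Set.range fun i => minpoly ℤ (π i), Rt P y) →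
      y ∈ {μ : ℂ | ∃ i, ∃ σ : K i →+* ℂ, σ (π i) = μ} := by
    rintro y ⟨P, ⟨i, rfl⟩, hP⟩
    obtain ⟨φ, hφ⟩ := (rt_iff (π i) (hint i) y).1 hP
    exact ⟨i, φ, hφ⟩
  rw [Multiset.prod_coe] at hprod
  have hlen : L.length = 2 * m := by
    have h2 := norm_list _ L hLn
    have h3 : ‖L.prod‖ ^ s = (((p : ℝ) ^ a) ^ m) ^ s := by
      have h4 := congrArg (fun y : ℂ => ‖y‖) hprod
      simp only [norm_pow, Complex.norm_natCast] at h4
      exact h4
    have h5 : ‖L.prod‖ = ((p : ℝ) ^ a) ^ m :=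
      (pow_left_inj₀ (norm_nonneg _) (by positivity) hs.ne').1 h3
    rw [h5, ← pow_mul] at h2
    have h6 := pow_right_injective₀ (by linarith : (0 : ℝ) < (p : ℝ) ^ a) hq1.ne' h2
    omega
  rw [Multiset.coe_count, Multiset.coe_count, ← hcast]
  exact Pool.Agent.H868R3.TwoOdd.list_balanced p K k hdeg hdisc ((p : ℚ) ^ a) hq π hgen
    (fun i φ => by rw [hweil i φ]; push_cast; rfl) κ hκ o hodd
    (fun i τ => by rw [h1]; exact hslope i τ) m s hs L hlen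
    (fun y hy => hmem y (hR y (by simpa using hy))) (by rw [hprod, hcast]) z (hmem z hz)

end Pool.Agent.K3h72.FB
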